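import Mathlib
import Pool.Agent.H88.GGArr

/-!
# 3SUM-Indexing with arbitrary preprocessing in groups with random labels

This is the model of generic group algorithms with preprocessing (Shoup; Corrigan-Gibbs and Kogan)
for 3SUM-Indexing. The elements of a finite group `G` (a vector space over a finite field `K`, for
example `G = K = ZMod p`) have random names: `σ : G ≃ L` is a uniformly random bijection to a set `L`
of labels (bit strings). Two arrays `a`, `b` of `n` elements of `G` are given. A data structure has `S`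
bits of memory, which may depend in an arbitrary way on the arrays and on the whole encoding `σ`. A
query is a label `σ z`, and it has to be decided whether `z` is a sum `a i + b j`. The query algorithm
knows both arrays and the whole memory (probes are not counted) and does any computation with the labels
for free, for example hashing, walks with distinguished points, function inversion. What is counted
are only the `T` group operations: a step gives the label of `c • z + u` for any scalar `c` and any
element `u`, or decodes a label which has not been obtained during the computation. The data structure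
may be random, and its answers need to be right only on the average: the query is a random sum with
probability one half and a random element which is not a sum with probability one half, the encoding is
random, and the answer is right with probability at least `1 / 2 + δ`.

1. For all arrays with `M` different sums, `2 M ≤ |G|`: `δ ^ 2 * M ≤ (6 S + 2) (T + 1) ^ 2`.
2. For explicit arrays of `n` elements in `(ZMod q) ^ 4` (`q ≥ n` prime) and `16 (T + 1) ^ 2 ≤ δ n`:
   `δ ^ 2 * n ^ 2 ≤ (6 S + 2) (T + 1)`.
3. There are arrays of `n` elements in `ZMod p` with `n ^ 2` sums, `p ≥ 2 n ^ 2`.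
4. `S = n ^ 2 * l` bits and `T = 0` are enough, if the labels have `l` bits.

So space `n ^ (2 - ε)` requires a query time which is a power of `n`: the conjecture of
Q1 holds in this model. The model contains the known data structures: tables of all sums with hashing,
and the structures with `S ^ 3 T = O~(n ^ 6)` from function inversion (Fiat and Naor).

Proof. Fix the contents of the memory; then there are `2 ^ S` algorithms without any information
about `σ`, and it is enough to show that for each of them the probability that `k` random queries are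
all answered correctly is at most `(1 / 2 + δ / 2) ^ k`. The pairs (element, label) which have been
met are collected in a set `P`. Given `P`, the next query looks the same for all elements `z` for which
no form `c • z + u` of its transcript takes a value in `P` or the value of another form. For a given
transcript this excludes at most `(T + 1) (T + 1 + |P|)` elements `z`; if two forms take the same
value at few pairs of sums only, then at most `|P| + O(T ^ 2 n)` sums `z`.
-/

set_option autoImplicit false

namespace Pool.Agent.Results.MP_e016b3_lc.GenericPreprocessing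

open Pool.Agent.H88.GG

section

variable {K G L : Type} [Field K] [AddCommGroup G] [Module K G] [Fintype G] [Fintype L] {m : ℕ}

open Classical in
/-- The success of a data structure with `T` steps for the encoding `σ`, if `C` is the set of the sums:
the mean value of the fraction of the elements of `C` which are accepted and the fraction of the other
elements which are rejected. -/
noncomputable def success (T : ℕ) (C : Finset G) (D : DS K G L m) (σ : G ≃ L) : ℝ :=
  (((C.filter fun z => D.answer T σ z = true).card : ℝ) / C.card +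
    (((Cᶜ).filter fun z => D.answer T σ z = false).card : ℝ) / (Cᶜ).card) / 2

open Classical in
/-- The expected success of the random data structure `D` for a random encoding. -/
noncomputable def expectedSuccess (T : ℕ) (C : Finset G) {Ω : Type} [Fintype Ω] (p : Ω → ℝ)
    (D : Ω → DS K G L m) : ℝ :=
  ∑ ω, p ω * ((∑ σ : G ≃ L, success T C (D ω) σ) / Fintype.card (G ≃ L))

omit [Fintype L] in
open Classical in
theorem success_eq (T : ℕ) (C : Finset G) (D : DS K G L m) (σ : G ≃ L) :
    success T C D σ = succ (D.alg (D.memory σ)) T C Cᶜ σ := by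
  unfold success succ
  rw [sum_ind, sum_ind, add_div, div_div, div_div, mul_comm (2 : ℝ), mul_comm (2 : ℝ)]
  have h : ∀ z, D.answer T σ z = answer (D.alg (D.memory σ)) T σ z := fun _ => rfl
  simp only [h]
  congr!

omit [AddCommGroup G] in
open Classical in
theorem compl_card (C : Finset G) : (Cᶜ).card = Fintype.card G - C.card := Finset.card_compl C

open Classical in
theorem expected_eq [Fintype K] (T : ℕ) (C : Finset G) {Ω : Type} [Fintype Ω] (p : Ω → ℝ)
    (D : Ω → DS K G L m) : expectedSuccess T C p D = expected T C Cᶜ p D := by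
  unfold expectedSuccess expected
  refine Finset.sum_congr rfl fun ω _ => ?_
  rw [Finset.sum_congr rfl fun σ _ => success_eq T C (D ω) σ]

end

theorem part1 (K G L : Type) [Field K] [Fintype K] [AddCommGroup G] [Module K G] [Fintype G]
    [DecidableEq G] [Fintype L] (hL : Fintype.card L = Fintype.card G) (n S T : ℕ)
    (a b : Fin n → G) (hab : 2 * (sums a b).card ≤ Fintype.card G) (δ : ℝ) (hδ : 0 < δ)
    (Ω : Type) [Fintype Ω] (p : Ω → ℝ) (hp : ∀ ω, 0 ≤ p ω) (hp1 : ∑ ω, p ω = 1)
    (D : Ω → DS K G L (2 ^ S))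
    (hD : 1 / 2 + δ ≤ expectedSuccess T (sums a b) p D) :
    δ ^ 2 * (sums a b).card ≤ (6 * S + 2) * (T + 1) ^ 2 := by
  rcases Nat.eq_zero_or_pos (sums a b).card with h0 | hpos
  · rw [h0]
    simp only [Nat.cast_zero, mul_zero]
    positivity
  · rw [expected_eq] at hD
    refine bound_general (sums a b) _ T δ hδ ?_ hpos ?_ p hp hp1 D hD
    · exact ⟨Fintype.equivOfCardEq hL.symm⟩
    · rw [compl_card]
      omega

theorem part2 (q n S T : ℕ) [Fact q.Prime] (hnq : n ≤ q) (L : Type) [Fintype L]
    (hL : Fintype.card L = q ^ 4) (δ : ℝ) (hδ : 0 < δ) (hT : 16 * ((T : ℝ) + 1) ^ 2 ≤ δ * n)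
    (Ω : Type) [Fintype Ω] (p : Ω → ℝ) (hp : ∀ ω, 0 ≤ p ω) (hp1 : ∑ ω, p ω = 1)
    (D : Ω → DS (ZMod q) (Fin 4 → ZMod q) L (2 ^ S))
    (hD : 1 / 2 + δ ≤ expectedSuccess (K := ZMod q) (G := Fin 4 → ZMod q) (L := L) (m := 2 ^ S) T
      (sums (arrA q n) (arrB q n)) p D) :
    δ ^ 2 * n ^ 2 ≤ (6 * S + 2) * (T + 1) := by
  have hq2 := (Fact.out : q.Prime).two_le
  have hcard : (sums (arrA q n) (arrB q n)).card = n ^ 2 := sums_arr_card q n hnq
  have hG : Fintype.card (Fin 4 → ZMod q) = q ^ 4 := by simp [ZMod.card]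
  rw [expected_eq] at hD
  have hδ2 : δ ≤ 1 / 2 := by
    have := hD.trans (expected_le_one T _ _ p hp hp1 D)
    linarith
  have hT1 : (0 : ℝ) ≤ T := by positivity
  have hn32 : (32 : ℝ) ≤ n := by nlinarith
  have hn32' : 32 ≤ n := by exact_mod_cast hn32
  have hTn : T + 1 ≤ n := by
    have : ((T : ℝ) + 1) ≤ n := by nlinarith
    exact_mod_cast this
  have h := fun h1 h2 => bound_dispersed (K := ZMod q) (G := Fin 4 → ZMod q) (L := L) (S := S)
    (H := n) (sums (arrA q n) (arrB q n)) _ (dispersed_arr q n hnq (by omega)) T δ hδ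
    ⟨Fintype.equivOfCardEq (hG.trans hL.symm)⟩
    (by rw [hcard]; positivity) h1 h2 p hp hp1 D hD
  rw [hcard] at h
  push_cast at h
  refine h ?_ ?_
  · rw [compl_card, hG, hcard]
    have h1 : n ^ 4 ≤ q ^ 4 := Nat.pow_le_pow_left hnq 4
    have h2 : 2 * (T + 1) * n ^ 2 + n ^ 2 ≤ n ^ 4 := by
      calc 2 * (T + 1) * n ^ 2 + n ^ 2 ≤ 2 * n * n ^ 2 + n ^ 2 := by gcongr
        _ ≤ 2 * n * n ^ 2 + n * n ^ 2 := by
            have : 1 * n ^ 2 ≤ n * n ^ 2 := Nat.mul_le_mul_right _ (by omega)
            omega
        _ = 3 * n ^ 3 := by ring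
        _ ≤ n * n ^ 3 := Nat.mul_le_mul_right _ (by omega)
        _ = n ^ 4 := by ring
    omega
  · have h3 : 8 * ((T : ℝ) + 1) ^ 2 * (1 + n) ≤ 16 * ((T : ℝ) + 1) ^ 2 * n := by
      have : (1 : ℝ) ≤ n := by linarith
      nlinarith [sq_nonneg ((T : ℝ) + 1)]
    calc 8 * ((T : ℝ) + 1) ^ 2 * (1 + n) ≤ 16 * ((T : ℝ) + 1) ^ 2 * n := h3
      _ ≤ δ * n * n := by
          refine mul_le_mul_of_nonneg_right hT (by positivity)
      _ = δ * n ^ 2 := by ring

theorem part3 (p n : ℕ) [Fact p.Prime] (h : 2 * n ^ 2 ≤ p) :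
    ∃ a b : Fin n → ZMod p, (sums a b).card = n ^ 2 := by
  refine ⟨fun i => ((i : ℕ) : ZMod p), fun j => ((n * (j : ℕ) : ℕ) : ZMod p), ?_⟩
  unfold sums
  rw [Finset.card_image_of_injective]
  · simp [sq]
  · rintro ⟨i, j⟩ ⟨i', j'⟩ he
    simp only at he
    have hn : 0 < n := lt_of_le_of_lt (Nat.zero_le _) i.2
    rw [← Nat.cast_add, ← Nat.cast_add, ZMod.natCast_eq_natCast_iff] at he
    have hlt : ∀ x y : Fin n, (x : ℕ) + n * (y : ℕ) < p := by
      intro x y
      have h1 : (x : ℕ) < n := x.2
      have h2 : (y : ℕ) + 1 ≤ n := y.2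
      have h3 : n * ((y : ℕ) + 1) ≤ n * n := Nat.mul_le_mul_left _ h2
      have h4 : 0 < n ^ 2 := by positivity
      nlinarith
    have he' := Nat.ModEq.eq_of_lt_of_lt he (hlt i j) (hlt i' j')
    have h1 : (i : ℕ) = i' := by
      have := congrArg (· % n) he'
      simpa [Nat.add_mul_mod_self_left, Nat.mod_eq_of_lt i.2, Nat.mod_eq_of_lt i'.2] using this
    have h2 : (j : ℕ) = j' := by
      rw [h1] at he'
      exact Nat.eq_of_mul_eq_mul_left hn (Nat.add_left_cancel he')
    rw [Fin.ext h1, Fin.ext h2]

open Classical in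
theorem part4 (K G L : Type) [Field K] [AddCommGroup G] [Module K G] [Fintype G]
    [DecidableEq G] [Fintype L] (n l : ℕ) (hl : Fintype.card L ≤ 2 ^ l) (a b : Fin n → G) :
    ∃ D : DS K G L (2 ^ (n ^ 2 * l)), ∀ (σ : G ≃ L) (z : G),
      D.answer 0 σ z = true ↔ z ∈ sums a b := by
  have hcard : Fintype.card (Fin n × Fin n → L) ≤ Fintype.card (Fin (2 ^ (n ^ 2 * l))) := by
    rw [Fintype.card_fun, Fintype.card_fin, Fintype.card_prod, Fintype.card_fin]
    calc Fintype.card L ^ (n * n) ≤ (2 ^ l) ^ (n * n) := Nat.pow_le_pow_left hl _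
      _ = 2 ^ (n ^ 2 * l) := by rw [← pow_mul]; congr 1; ring
  obtain ⟨e⟩ := Function.Embedding.nonempty_of_card_le hcard
  refine ⟨⟨fun σ => e fun ij => σ (a ij.1 + b ij.2), fun α => ⟨fun _ => .eval (1, 0),
    fun h => decide (∃ x : Fin n × Fin n → L, e x = α ∧ ∃ ij, ∃ r ∈ h, r.2 = x ij)⟩⟩, ?_⟩
  intro σ z
  unfold DS.answer answer sums
  simp only [Pool.Agent.H88.GG.trans, decide_eq_true_eq, List.mem_singleton, exists_eq_left, Finset.mem_image,
    Finset.mem_univ, true_and]
  constructor
  · rintro ⟨x, hx, ij, h⟩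
    have hx' := e.injective hx
    rw [hx'] at h
    exact ⟨ij, (σ.injective h).symm⟩
  · rintro ⟨ij, rfl⟩
    exact ⟨_, rfl, ij, rfl⟩

/-- **3SUM-Indexing with arbitrary preprocessing in groups with random labels.** -/
theorem result :
    (∀ (K G L : Type) [Field K] [Fintype K] [AddCommGroup G] [Module K G] [Fintype G]
      [DecidableEq G] [Fintype L], Fintype.card L = Fintype.card G →
      ∀ (n S T : ℕ) (a b : Fin n → G), 2 * (sums a b).card ≤ Fintype.card G →
      ∀ δ : ℝ, 0 < δ → ∀ (Ω : Type) [Fintype Ω] (p : Ω → ℝ), (∀ ω, 0 ≤ p ω) → ∑ ω, p ω = 1 →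
      ∀ D : Ω → DS K G L (2 ^ S), 1 / 2 + δ ≤ expectedSuccess T (sums a b) p D →
        δ ^ 2 * (sums a b).card ≤ (6 * S + 2) * (T + 1) ^ 2) ∧
    (∀ (q n S T : ℕ) [Fact q.Prime], n ≤ q → ∀ (L : Type) [Fintype L],
      Fintype.card L = q ^ 4 → ∀ δ : ℝ, 0 < δ → 16 * ((T : ℝ) + 1) ^ 2 ≤ δ * n →
      ∀ (Ω : Type) [Fintype Ω] (p : Ω → ℝ), (∀ ω, 0 ≤ p ω) → ∑ ω, p ω = 1 →
      ∀ D : Ω → DS (ZMod q) (Fin 4 → ZMod q) L (2 ^ S),
        1 / 2 + δ ≤ expectedSuccess (K := ZMod q) (G := Fin 4 → ZMod q) (L := L) (m := 2 ^ S) T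
          (sums (arrA q n) (arrB q n)) p D →
        δ ^ 2 * n ^ 2 ≤ (6 * S + 2) * (T + 1)) ∧
    (∀ (p n : ℕ) [Fact p.Prime], 2 * n ^ 2 ≤ p →
      ∃ a b : Fin n → ZMod p, (sums a b).card = n ^ 2) ∧
    (∀ (K G L : Type) [Field K] [AddCommGroup G] [Module K G] [Fintype G] [DecidableEq G]
      [Fintype L] (n l : ℕ), Fintype.card L ≤ 2 ^ l → ∀ a b : Fin n → G,
      ∃ D : DS K G L (2 ^ (n ^ 2 * l)), ∀ (σ : G ≃ L) (z : G),
        D.answer 0 σ z = true ↔ z ∈ sums a b) := by
  refine ⟨?_, ?_, ?_, ?_⟩
  · intro K G L _ _ _ _ _ _ _ hL n S T a b hab δ hδ Ω _ p hp hp1 D hD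
    exact part1 K G L hL n S T a b hab δ hδ Ω p hp hp1 D hD
  · intro q n S T _ hnq L _ hL δ hδ hT Ω _ p hp hp1 D hD
    exact part2 q n S T hnq L hL δ hδ hT Ω p hp hp1 D hD
  · intro p n _ h
    exact part3 p n h
  · intro K G L _ _ _ _ _ _ n l hl a b
    exact part4 K G L n l hl a b

end Pool.Agent.Results.MP_e016b3_lc.GenericPreprocessing
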