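import Pool.Agent.H34TP.Fin

set_option autoImplicit false

/-!
# 3SUM-Indexing: space `n ^ (1 + 1 / (t - 1))` for `t` adaptive probes of short words

Data structures in the cell probe model: `S` cells with `W` possible contents each (`W = 2 ^ w` for
words of `w` bits), arbitrary preprocessing, adaptive queries, arbitrary computation, randomised with
two-sided error. If for all arrays of `n` integers from `{0, …, n ^ 3}` and all `z` at most `t ≥ 2`
probes decide whether `z` is the sum of an element of the first array and an element of the second
array, correctly with probability at least `1 / 2 + δ`, then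

  `δ ^ (3 t) n ^ t ≤ (10 t) ^ (6 t) (S + n) ^ (t - 1) W ^ (3 t ^ 2) (log₂ (n / δ)) ^ 4`.

So for a fixed number `t` of probes to words of `O(log log n)` bits the space is at least
`n ^ (1 + 1 / (t - 1))` up to polylogarithmic factors (and for words of `o(log n)` bits up to a factor
`n ^ o(1)`). For `t = 2` this is the bound of TwoShortProbes. For three and more probes and two-sided
error the bound of cell sampling is `n ^ (1 + 1 / t)` (MultiProbeLowerBound, which has the exponent
`1 + 1 / (T - 1)` only without error on one side).

Proof. The hard instances are those of TwoShortProbes: `k ^ 2` queries, `(i, j)` asks for the random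
bit `Y (j, e i)`, with a random map `e` from `{0, …, k - 1}` to `{0, …, u - 1}`. A decision tree with
`t` probes is a sum of `W ^ t` products: (answer at the leaf) times the indicators of `t` cells having
certain contents; the cells of a product do not depend on the memory. For one product, all but the
last two indicators are removed one after the other: a random sample of the cells, which contains a
cell `a` with probability `min (1, θ d a)` where `d a` is the number of the queries which use it, is
read in advance. For a fixed sample this gives at most `2 ^ |sample|` functions without this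
indicator, so that the maximum over the functions (concentration in the random bits `Y`) costs
little, while the queries are reweighted such that nothing changes in expectation. For the last two
indicators the form is bilinear in the memory and is estimated by a trace moment.
-/

namespace Pool.Agent.Results.MP_e016b3_lc.ManyShortProbes

open Pool.Agent.R563.TP Pool.Agent.H34TP

/-- Let `t ≥ 2`. Every randomised data structure with `S` cells with `W` possible contents each which
decides 3SUM-Indexing for arrays of `n` integers from `{0, …, n ^ 3}` with `t` adaptive probes, with
probability at least `1 / 2 + δ`, satisfies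
`δ ^ (3 t) n ^ t ≤ (10 t) ^ (6 t) (S + n) ^ (t - 1) W ^ (3 t ^ 2) (log₂ (n / δ)) ^ 4`. -/
theorem result (t n S W : ℕ) (δ : ℝ) (ht : 2 ≤ t) (hn : 2 ≤ n) (hS : 1 ≤ S) (hW : 1 ≤ W)
    (hδ : 0 < δ) (hδ2 : δ ≤ 1 / 2) (Ω : Type) [Fintype Ω] (p : Ω → ℝ) (D : Ω → SumDS n S W)
    (hD : SolvesT t p D δ) :
    δ ^ (3 * t) * (n : ℝ) ^ t ≤ (10 * (t : ℝ)) ^ (6 * t) * ((S : ℝ) + n) ^ (t - 1) *
      (W : ℝ) ^ (3 * t ^ 2) * (Real.logb 2 (n / δ)) ^ 4 := by
  obtain ⟨m, rfl⟩ := Nat.exists_eq_add_of_le' ht
  have h := main m n S W δ hn hS hW hδ hδ2 Ω p D hD
  have h1 : m + 2 - 1 = m + 1 := rfl
  rw [h1]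
  push_cast
  exact h

end Pool.Agent.Results.MP_e016b3_lc.ManyShortProbes
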