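import Pool.Agent.H36NC.Fin

set_option autoImplicit false

/-!
# 3SUM-Indexing: certificates for the negative answers

Cell probe model: from two arrays of `n` integers of `{0, …, N - 1}` a memory of `S` cells with `W` possible
contents is computed (`DS.mem`, arbitrary preprocessing), and a cache with `K` possible contents (so of
`log₂ K` bits), which can be read for free. A *certificate* for the query `z` consists of `t` cells of the
memory, chosen nondeterministically; whether it is accepted is an arbitrary function of the cache, of `z`,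
and of the addresses and contents of these cells (`DS.accept`). So the certificates may use additional
nondeterministic bits of any number, and if a deterministic, adaptive query algorithm reads `t` cells, the
cells which it reads are a certificate of the answer. We consider certificates for the fact that `z` is NOT
the sum of an element of the first array and an element of the second array: `z` has no certificate if it
is such a sum (`DS.Sound`). The data structure may be random.

1. Average case. If for uniformly random arrays and a uniformly random `z` in `{0, …, 2 N - 2}` there is a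
   certificate with probability at least `δ`, then `(δ n) ^ (1 + 1 / t) ≤ 2 ^ 16 t S log₂ W`, as long as
   `1024 (t log₂ W + log₂ K + log (1 / δ)) ≤ δ n`. There is no condition on `N`.
2. Worst case. If `n ^ 2 ≤ N` and for all arrays every `z` in `{0, …, 2 N - 2}` which is not a sum has a
   certificate with probability at least `ε`, then `(ε n) ^ (1 + 1 / t) ≤ 2 ^ 20 t S log₂ W`, as long as
   `10 ^ 4 (t log₂ W + log₂ K + log (1 / ε)) ≤ ε n`.
3. For `t = 1` this is sharp up to a factor `O(log N)`: with `n ^ 2 + 1` cells with `(2 N) ^ 2` possible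
   contents every `z` which is not a sum has a certificate of one cell.
4. The positive answers are different: with `2 n` cells with `N` possible contents exactly the `z` which
   are sums have certificates of two cells.

So the negative answers to 3SUM-Indexing cannot be verified with `t` probes in space `n ^ (1 + 1 / t - c)`,
even if only a small part of them (on the average over the inputs and queries) has to be verified; and the
number of probes is at least of the order `log n / log (t S log W / n)`.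

Proof. Divide the cells into `m` classes, where `m ^ t ≤ δ n / 256`. Every certificate lies in one of the
`m ^ t` unions of `t` classes. So for one of the unions its cells, at most `t (S / m + 1)`, certify at least
`δ N / (4 m ^ t) ≥ 4 N / n` integers in the middle of the range of the sums. These integers are a function of
the cache, the union and the contents of its cells. By a potential function argument a fixed set of at
least `4 N / n` such integers contains no sum of elements of the two random arrays with probability at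
most `2 exp (- δ n / 64)` only.
-/

namespace Pool.Agent.Results.MP_e016b3_lc.NegativeCertificates

open Finset

/-- `z` is the sum of an element of the first array and an element of the second array -/
def IsSum {n N : ℕ} (A B : Fin n → Fin N) (z : ℕ) : Prop := ∃ i j, (A i : ℕ) + (B j : ℕ) = z

/-- a memory of `S` cells with `W` possible contents and a cache with `K` possible contents, which are
functions of the two arrays of `n` integers from `{0, …, N - 1}`, and an arbitrary rule, which depends on the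
contents of the cache and on the query, which certificates (`t` cells) are accepted -/
structure DS (n N K S W t : ℕ) where
  cache : (Fin n → Fin N) → (Fin n → Fin N) → Fin K
  mem : (Fin n → Fin N) → (Fin n → Fin N) → Fin S → Fin W
  accept : Fin K → ℕ → (Fin t → Fin S) → (Fin t → Fin W) → Prop

variable {n N K S W t : ℕ}

/-- the query `z` has a certificate -/
def DS.Cert (D : DS n N K S W t) (A B : Fin n → Fin N) (z : ℕ) : Prop :=
  ∃ a : Fin t → Fin S, D.accept (D.cache A B) z a fun i => D.mem A B (a i)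

/-- only integers which are not sums have certificates -/
def DS.Sound (D : DS n N K S W t) : Prop := ∀ A B z, IsSum A B z → ¬ D.Cert A B z

open Classical in
/-- the number of the integers in `{0, …, 2 N - 2}` which have a certificate -/
noncomputable def DS.num (D : DS n N K S W t) (A B : Fin n → Fin N) : ℕ :=
  ((range (2 * N - 1)).filter fun z => D.Cert A B z).card

/-- the probability that a random integer in `{0, …, 2 N - 2}` has a certificate, for random arrays -/
noncomputable def DS.prob (D : DS n N K S W t) : ℝ :=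
  (∑ A : Fin n → Fin N, ∑ B : Fin n → Fin N, (D.num A B : ℝ)) /
    ((2 * N - 1 : ℕ) * ((N : ℝ) ^ n * (N : ℝ) ^ n))

theorem det_bound (D : DS n N K S W t) (hN : 0 < N) (ht : 1 ≤ t) (hW : 2 ≤ W) (hK : 1 ≤ K)
    (hs : D.Sound) (δ : ℝ) (hδ : 0 < δ) (hp : δ ≤ D.prob)
    (hbig : 1024 * (t * Real.logb 2 W + Real.logb 2 K + Real.log (1 / δ)) ≤ δ * n) :
    (δ * n) ^ (1 + 1 / (t : ℝ)) ≤ 65536 * t * S * Real.logb 2 W := by
  classical
  have hN' : (0 : ℝ) < N := by exact_mod_cast hN
  have h0 : (0 : ℝ) < (2 * N - 1 : ℕ) := by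
    have : 0 < 2 * N - 1 := by omega
    exact_mod_cast this
  have hP : (0 : ℝ) < (2 * N - 1 : ℕ) * ((N : ℝ) ^ n * (N : ℝ) ^ n) := by positivity
  have hle : D.prob ≤ 1 := by
    rw [DS.prob, div_le_one hP]
    have h1 : ∀ A B : Fin n → Fin N, (D.num A B : ℝ) ≤ (2 * N - 1 : ℕ) := by
      intro A B
      have := card_filter_le (range (2 * N - 1)) fun z => D.Cert A B z
      rw [card_range] at this
      exact_mod_cast this
    calc ∑ A : Fin n → Fin N, ∑ B : Fin n → Fin N, (D.num A B : ℝ)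
        ≤ ∑ A : Fin n → Fin N, ∑ B : Fin n → Fin N, ((2 * N - 1 : ℕ) : ℝ) :=
          sum_le_sum fun A _ => sum_le_sum fun B _ => h1 A B
      _ = _ := by
          simp only [sum_const, card_univ, Fintype.card_fun, Fintype.card_fin, nsmul_eq_mul]
          push_cast
          ring
  have hsum : δ * (2 * N - 1 : ℕ) * ((N : ℝ) ^ n * (N : ℝ) ^ n) ≤
      ∑ p : (Fin n → Fin N) × (Fin n → Fin N),
        (((range (2 * N - 1)).filter (H36NC.Crt D.cache D.mem D.accept p)).card : ℝ) := by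
    rw [DS.prob, le_div_iff₀ hP] at hp
    rw [Fintype.sum_prod_type, mul_assoc]
    exact hp
  exact H36NC.calc_bound n S W K t ht hW hK δ hδ (hp.trans hle) hbig fun m hm hmn =>
    H36NC.count D.cache D.mem D.accept δ hδ (hp.trans hle) hN (fun p z hz => hs p.1 p.2 z hz) hsum m hm hmn
      (by omega)

theorem random_bound (hN : 0 < N) (ht : 1 ≤ t) (hW : 2 ≤ W) (hK : 1 ≤ K) (Ω : Type) [Fintype Ω] (p : Ω → ℝ)
    (hp0 : ∀ ω, 0 ≤ p ω) (hp1 : ∑ ω, p ω = 1) (D : Ω → DS n N K S W t) (hs : ∀ ω, (D ω).Sound) (δ : ℝ)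
    (hδ : 0 < δ) (hp : δ ≤ ∑ ω, p ω * (D ω).prob)
    (hbig : 1024 * (t * Real.logb 2 W + Real.logb 2 K + Real.log (1 / δ)) ≤ δ * n) :
    (δ * n) ^ (1 + 1 / (t : ℝ)) ≤ 65536 * t * S * Real.logb 2 W := by
  obtain ⟨ω, hω⟩ : ∃ ω, δ ≤ (D ω).prob := by
    by_contra hcon
    push Not at hcon
    have h1 : ∑ ω, p ω * (D ω).prob ≤ ∑ ω, p ω * δ :=
      sum_le_sum fun ω _ => mul_le_mul_of_nonneg_left (hcon ω).le (hp0 ω)
    rw [← sum_mul, hp1, one_mul] at h1
    have h2 : ∑ ω, p ω * (D ω).prob = ∑ ω, p ω * δ := by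
      rw [← sum_mul, hp1, one_mul]
      exact le_antisymm h1 hp
    have h3 : ∀ ω ∈ (univ : Finset Ω), p ω * (D ω).prob = p ω * δ :=
      (sum_eq_sum_iff_of_le fun ω _ => mul_le_mul_of_nonneg_left (hcon ω).le (hp0 ω)).1 h2
    have h4 : ∀ ω, p ω = 0 := by
      intro ω
      by_contra h5
      have h6 := mul_left_cancel₀ h5 (h3 ω (mem_univ _))
      exact absurd h6 (hcon ω).ne
    rw [sum_eq_zero fun ω _ => h4 ω] at hp1
    exact zero_ne_one hp1
  exact det_bound (D ω) hN ht hW hK (hs ω) δ hδ hω hbig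

theorem worst_bound (ht : 1 ≤ t) (hW : 2 ≤ W) (hK : 1 ≤ K) (hnN : n ^ 2 ≤ N) (Ω : Type) [Fintype Ω] (p : Ω → ℝ)
    (hp0 : ∀ ω, 0 ≤ p ω) (hp1 : ∑ ω, p ω = 1) (D : Ω → DS n N K S W t) (hs : ∀ ω, (D ω).Sound) (ε : ℝ)
    (hε : 0 < ε) (hε1 : ε ≤ 1)
    (hc : ∀ A B z, z < 2 * N - 1 → ¬ IsSum A B z →
      ∃ Q : Finset Ω, (∀ ω ∈ Q, (D ω).Cert A B z) ∧ ε ≤ ∑ ω ∈ Q, p ω)
    (hbig : 10000 * (t * Real.logb 2 W + Real.logb 2 K + Real.log (1 / ε)) ≤ ε * n) :
    (ε * n) ^ (1 + 1 / (t : ℝ)) ≤ 1048576 * t * S * Real.logb 2 W := by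
  classical
  have hW' : (2 : ℝ) ≤ W := by exact_mod_cast hW
  have ht' : (1 : ℝ) ≤ t := by exact_mod_cast ht
  have hL2 : 1 ≤ Real.logb 2 W := by
    rw [Real.le_logb_iff_rpow_le (by norm_num) (by linarith), Real.rpow_one]
    exact hW'
  have htL : 1 ≤ (t : ℝ) * Real.logb 2 W := by nlinarith
  have hLK : 0 ≤ Real.logb 2 K := Real.logb_nonneg (by norm_num) (by exact_mod_cast hK)
  have hlε : 0 ≤ Real.log (1 / ε) := Real.log_nonneg (by rw [le_div_iff₀ hε]; linarith)
  have hn : (2 : ℝ) ≤ n := by nlinarith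
  have hn' : 2 ≤ n := by exact_mod_cast hn
  have hN : 4 ≤ N := le_trans (by nlinarith) hnN
  have hN0 : 0 < N := by omega
  have hN' : (0 : ℝ) < N := by exact_mod_cast hN0
  have h0 : (0 : ℝ) < (2 * N - 1 : ℕ) := by
    have : 0 < 2 * N - 1 := by omega
    exact_mod_cast this
  have hP : (0 : ℝ) < (2 * N - 1 : ℕ) * ((N : ℝ) ^ n * (N : ℝ) ^ n) := by positivity
  -- the expected number of certified queries
  have h1 : ∀ A B : Fin n → Fin N, ε / 4 * (2 * N - 1 : ℕ) ≤ ∑ ω, p ω * ((D ω).num A B : ℝ) := by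
    intro A B
    have h2 : ∀ z ∈ (range (2 * N - 1)).filter fun z => ¬ IsSum A B z,
        ε ≤ ∑ ω, p ω * (if (D ω).Cert A B z then 1 else 0) := by
      intro z hz
      obtain ⟨Q, hQ, hQε⟩ := hc A B z (mem_range.1 (mem_filter.1 hz).1) (mem_filter.1 hz).2
      refine hQε.trans ?_
      calc ∑ ω ∈ Q, p ω = ∑ ω ∈ Q, p ω * (if (D ω).Cert A B z then 1 else 0) :=
            sum_congr rfl fun ω hω => by rw [if_pos (hQ ω hω), mul_one]
        _ ≤ ∑ ω, p ω * (if (D ω).Cert A B z then 1 else 0) :=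
            sum_le_sum_of_subset_of_nonneg (subset_univ _) fun ω _ _ =>
              mul_nonneg (hp0 ω) (by split_ifs <;> norm_num)
    have h3 : ∑ ω, p ω * ((D ω).num A B : ℝ) =
        ∑ z ∈ range (2 * N - 1), ∑ ω, p ω * (if (D ω).Cert A B z then 1 else 0) := by
      rw [sum_comm]
      refine sum_congr rfl fun ω _ => ?_
      rw [← mul_sum, DS.num, sum_boole]
    have h4 : (((range (2 * N - 1)).filter fun z => ¬ IsSum A B z).card : ℝ) * ε ≤
        ∑ z ∈ range (2 * N - 1), ∑ ω, p ω * (if (D ω).Cert A B z then 1 else 0) := by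
      rw [← nsmul_eq_mul, ← sum_const]
      exact (sum_le_sum h2).trans (sum_le_sum_of_subset_of_nonneg (filter_subset _ _) fun z _ _ =>
        sum_nonneg fun ω _ => mul_nonneg (hp0 ω) (by split_ifs <;> norm_num))
    have h5 : ((range (2 * N - 1)).filter fun z => IsSum A B z).card ≤ n ^ 2 := by
      have h6 : ((range (2 * N - 1)).filter fun z => IsSum A B z) ⊆
          univ.image fun q : Fin n × Fin n => (A q.1 : ℕ) + (B q.2 : ℕ) := by
        intro z hz
        obtain ⟨i, j, hij⟩ := (mem_filter.1 hz).2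
        exact mem_image.2 ⟨(i, j), mem_univ _, hij⟩
      refine (card_le_card h6).trans (card_image_le.trans ?_)
      rw [card_univ, Fintype.card_prod, Fintype.card_fin, sq]
    have h7 := card_filter_add_card_filter_not (s := range (2 * N - 1)) fun z => IsSum A B z
    rw [card_range] at h7
    have h8 : 2 * N - 1 ≤ 4 * ((range (2 * N - 1)).filter fun z => ¬ IsSum A B z).card := by omega
    have h9 : ((2 * N - 1 : ℕ) : ℝ) ≤
        4 * (((range (2 * N - 1)).filter fun z => ¬ IsSum A B z).card : ℝ) := by exact_mod_cast h8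
    rw [h3]
    refine le_trans ?_ h4
    nlinarith
  have hprob : ε / 4 ≤ ∑ ω, p ω * (D ω).prob := by
    have h2 : ∑ ω, p ω * (D ω).prob =
        (∑ A : Fin n → Fin N, ∑ B : Fin n → Fin N, ∑ ω, p ω * ((D ω).num A B : ℝ)) /
          ((2 * N - 1 : ℕ) * ((N : ℝ) ^ n * (N : ℝ) ^ n)) := by
      have h3 : ∑ A : Fin n → Fin N, ∑ B : Fin n → Fin N, ∑ ω, p ω * ((D ω).num A B : ℝ) =
          ∑ ω, p ω * ∑ A : Fin n → Fin N, ∑ B : Fin n → Fin N, ((D ω).num A B : ℝ) := by
        simp only [mul_sum]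
        rw [sum_comm]
        have h4 : ∀ B : Fin n → Fin N, ∑ A : Fin n → Fin N, ∑ ω, p ω * ((D ω).num A B : ℝ) =
            ∑ ω, ∑ A : Fin n → Fin N, p ω * ((D ω).num A B : ℝ) := fun B => sum_comm
        rw [sum_congr rfl fun B _ => h4 B, sum_comm]
        refine sum_congr rfl fun ω _ => ?_
        rw [sum_comm]
      rw [h3, sum_div]
      refine sum_congr rfl fun ω _ => ?_
      rw [DS.prob, mul_div_assoc]
    rw [h2, le_div_iff₀ hP]
    calc ε / 4 * ((2 * N - 1 : ℕ) * ((N : ℝ) ^ n * (N : ℝ) ^ n))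
        = ∑ A : Fin n → Fin N, ∑ B : Fin n → Fin N, ε / 4 * (2 * N - 1 : ℕ) := by
          simp only [sum_const, card_univ, Fintype.card_fun, Fintype.card_fin, nsmul_eq_mul]
          push_cast
          ring
      _ ≤ _ := sum_le_sum fun A _ => sum_le_sum fun B _ => h1 A B
  have hlog : Real.log (1 / (ε / 4)) = 2 * Real.log 2 + Real.log (1 / ε) := by
    have e1 : (1 / (ε / 4) : ℝ) = 2 ^ 2 * (1 / ε) := by
      field_simp
      norm_num
    rw [e1, Real.log_mul (by norm_num) (by positivity), Real.log_pow]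
    norm_num
  have hlog2 : Real.log 2 ≤ 0.7 := by linarith [Real.log_two_lt_d9]
  have hfin := random_bound hN0 ht hW hK Ω p hp0 hp1 D hs (ε / 4) (by positivity) hprob (by
    rw [hlog]
    have : ε / 4 * n = ε * n / 4 := by ring
    rw [this]
    linarith)
  have h10 : (ε * n) ^ (1 + 1 / (t : ℝ)) ≤ 16 * (ε / 4 * n) ^ (1 + 1 / (t : ℝ)) := by
    have e1 : ε * n = 4 * (ε / 4 * n) := by ring
    have e2 : (4 : ℝ) ^ (1 + 1 / (t : ℝ)) ≤ 16 := by
      have h11 : 1 / (t : ℝ) ≤ 1 := by
        rw [div_le_one (by linarith)]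
        exact ht'
      calc (4 : ℝ) ^ (1 + 1 / (t : ℝ)) ≤ (4 : ℝ) ^ (2 : ℝ) :=
            Real.rpow_le_rpow_of_exponent_le (by norm_num) (by linarith)
        _ = 16 := by norm_num
    rw [e1, Real.mul_rpow (by norm_num) (by positivity)]
    have e3 : ε / 4 * (n : ℝ) = ε / 4 * n := rfl
    have e4 : 0 ≤ (ε / 4 * (n : ℝ)) ^ (1 + 1 / (t : ℝ)) := by positivity
    have e5 : ε / 4 * (4 * (ε / 4 * n)) = ε / 4 * (4 * (ε / 4 * n)) := rfl
    calc (4 : ℝ) ^ (1 + 1 / (t : ℝ)) * (ε / 4 * n) ^ (1 + 1 / (t : ℝ)) ≤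
        16 * (ε / 4 * n) ^ (1 + 1 / (t : ℝ)) := mul_le_mul_of_nonneg_right e2 e4
      _ = _ := by ring_nf
  linarith

theorem one_cell (n N : ℕ) (hN : 0 < N) : ∃ D : DS n N 1 (n * n + 1) (2 * N * (2 * N)) 1, D.Sound ∧
    ∀ A B z, z < 2 * N - 1 → ¬ IsSum A B z → D.Cert A B z := by
  classical
  have hex : ∀ (A B : Fin n → Fin N) (u : ℕ), ∃ v, v = 2 * N - 1 ∨ (u ≤ v ∧ IsSum A B v) :=
    fun A B u => ⟨2 * N - 1, Or.inl rfl⟩
  have hle : ∀ (A B : Fin n → Fin N) (u : ℕ), Nat.find (hex A B u) < 2 * N := fun A B u =>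
    lt_of_le_of_lt (Nat.find_min' _ (Or.inl rfl)) (by omega)
  -- the lower end points
  obtain ⟨lo, hlo, hlo0, hlo1⟩ : ∃ lo : (Fin n → Fin N) → (Fin n → Fin N) → Fin (n * n + 1) → ℕ,
      (∀ A B s, lo A B s < 2 * N) ∧ (∀ A B, ∃ s, lo A B s = 0) ∧
      ∀ A B i j, ∃ s, lo A B s = (A i : ℕ) + (B j : ℕ) + 1 := by
    refine ⟨fun A B s => if h : (s : ℕ) < n * n then
      (A (finProdFinEquiv.symm ⟨s, h⟩).1 : ℕ) + (B (finProdFinEquiv.symm ⟨s, h⟩).2 : ℕ) + 1 else 0,
      ?_, ?_, ?_⟩
    · intro A B s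
      dsimp only
      split_ifs with h
      · have h1 := (A (finProdFinEquiv.symm ⟨s, h⟩).1).2
        have h2 := (B (finProdFinEquiv.symm ⟨s, h⟩).2).2
        omega
      · omega
    · intro A B
      exact ⟨⟨n * n, by omega⟩, dif_neg (lt_irrefl _)⟩
    · intro A B i j
      have h : ((finProdFinEquiv (i, j) : Fin (n * n)) : ℕ) < n * n := (finProdFinEquiv (i, j)).2
      refine ⟨⟨(finProdFinEquiv (i, j) : Fin (n * n)), by omega⟩, ?_⟩
      dsimp only
      rw [dif_pos h, Fin.eta, Equiv.symm_apply_apply]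
  refine ⟨⟨fun _ _ => 0, fun A B s => finProdFinEquiv (⟨lo A B s, hlo A B s⟩,
      ⟨Nat.find (hex A B (lo A B s)), hle A B _⟩),
    fun _ z _ c => ((finProdFinEquiv.symm (c 0)).1 : ℕ) ≤ z ∧ z < ((finProdFinEquiv.symm (c 0)).2 : ℕ)⟩,
    ?_, ?_⟩
  · rintro A B z hz ⟨a, h1, h2⟩
    simp only [Equiv.symm_apply_apply] at h1 h2
    exact absurd (Nat.find_min' (hex A B (lo A B (a 0))) (Or.inr ⟨h1, hz⟩)) (not_le.2 h2)
  · intro A B z hz hns
    have key : ∀ s, lo A B s ≤ z → (∀ v, lo A B s ≤ v → v ≤ z → ¬ IsSum A B v) →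
        DS.Cert (K := 1) ⟨fun _ _ => 0, fun A B s => finProdFinEquiv (⟨lo A B s, hlo A B s⟩,
          ⟨Nat.find (hex A B (lo A B s)), hle A B _⟩),
          fun _ z (_ : Fin 1 → Fin (n * n + 1)) c => ((finProdFinEquiv.symm (c 0)).1 : ℕ) ≤ z ∧
            z < ((finProdFinEquiv.symm (c 0)).2 : ℕ)⟩ A B z := by
      intro s h1 h2
      refine ⟨fun _ => s, ?_⟩
      simp only [Equiv.symm_apply_apply]
      refine ⟨h1, ?_⟩
      rw [Nat.lt_find_iff]
      rintro v hv (rfl | ⟨h3, h4⟩)
      · omega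
      · exact h2 v h3 hv h4
    by_cases hg : IsSum A B (Nat.findGreatest (IsSum A B) z)
    · obtain ⟨i, j, hij⟩ := hg
      obtain ⟨s, hs⟩ := hlo1 A B i j
      have hgz : Nat.findGreatest (IsSum A B) z ≤ z := Nat.findGreatest_le z
      have hne : Nat.findGreatest (IsSum A B) z ≠ z := by
        intro h
        exact hns (h ▸ ⟨i, j, hij⟩)
      apply key s
      · omega
      · intro v hv hvz
        exact Nat.findGreatest_is_greatest (by omega) hvz
    · obtain ⟨s, hs⟩ := hlo0 A B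
      apply key s
      · omega
      · intro v _ hvz hv
        exact hg (Nat.findGreatest_spec hvz hv)

theorem two_cells (n N : ℕ) : ∃ D : DS n N 1 (n + n) N 2, ∀ A B z, D.Cert A B z ↔ IsSum A B z := by
  refine ⟨⟨fun _ _ => 0, fun A B => Fin.append A B, fun _ z a c => (a 0 : ℕ) < n ∧ n ≤ (a 1 : ℕ) ∧
    (c 0 : ℕ) + (c 1 : ℕ) = z⟩, fun A B z => ⟨?_, ?_⟩⟩
  · rintro ⟨a, h0, h1, h2⟩
    have e0 : a 0 = Fin.castAdd n ⟨a 0, h0⟩ := rfl
    have e1 : a 1 = Fin.natAdd n ⟨(a 1 : ℕ) - n, by have := (a 1).2; omega⟩ := by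
      apply Fin.ext
      simp only [Fin.natAdd_mk]
      omega
    refine ⟨⟨a 0, h0⟩, ⟨(a 1 : ℕ) - n, by have := (a 1).2; omega⟩, ?_⟩
    dsimp only at h2
    rw [e1, Fin.append_right] at h2
    rw [e0, Fin.append_left] at h2
    exact h2
  · rintro ⟨i, j, hij⟩
    refine ⟨![Fin.castAdd n i, Fin.natAdd n j], ?_, ?_, ?_⟩
    · simp
    · simp
    · show ((Fin.append A B (Fin.castAdd n i) : Fin N) : ℕ) +
        ((Fin.append A B (Fin.natAdd n j) : Fin N) : ℕ) = z
      rw [Fin.append_left, Fin.append_right]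
      exact hij

/-- **Theorem.** The parts are described at the beginning of the file. -/
theorem result :
    (∀ (n N K S W t : ℕ) (_hN : 0 < N) (_ht : 1 ≤ t) (_hW : 2 ≤ W) (_hK : 1 ≤ K) (Ω : Type) [Fintype Ω] (p : Ω → ℝ)
      (_hp0 : ∀ ω, 0 ≤ p ω) (_hp1 : ∑ ω, p ω = 1) (D : Ω → DS n N K S W t) (_hs : ∀ ω, (D ω).Sound)
      (δ : ℝ) (_hδ : 0 < δ) (_hp : δ ≤ ∑ ω, p ω * (D ω).prob)
      (_hbig : 1024 * (t * Real.logb 2 W + Real.logb 2 K + Real.log (1 / δ)) ≤ δ * n),
      (δ * n) ^ (1 + 1 / (t : ℝ)) ≤ 2 ^ 16 * t * S * Real.logb 2 W) ∧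
    (∀ (n N K S W t : ℕ) (_hnN : n ^ 2 ≤ N) (_ht : 1 ≤ t) (_hW : 2 ≤ W) (_hK : 1 ≤ K) (Ω : Type) [Fintype Ω]
      (p : Ω → ℝ) (_hp0 : ∀ ω, 0 ≤ p ω) (_hp1 : ∑ ω, p ω = 1) (D : Ω → DS n N K S W t)
      (_hs : ∀ ω, (D ω).Sound) (ε : ℝ) (_hε : 0 < ε) (_hε1 : ε ≤ 1)
      (_hc : ∀ A B z, z < 2 * N - 1 → ¬ IsSum A B z →
        ∃ Q : Finset Ω, (∀ ω ∈ Q, (D ω).Cert A B z) ∧ ε ≤ ∑ ω ∈ Q, p ω)
      (_hbig : 10 ^ 4 * (t * Real.logb 2 W + Real.logb 2 K + Real.log (1 / ε)) ≤ ε * n),
      (ε * n) ^ (1 + 1 / (t : ℝ)) ≤ 2 ^ 20 * t * S * Real.logb 2 W) ∧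
    (∀ (n N : ℕ) (_hN : 0 < N), ∃ D : DS n N 1 (n * n + 1) (2 * N * (2 * N)) 1, D.Sound ∧
      ∀ A B z, z < 2 * N - 1 → ¬ IsSum A B z → D.Cert A B z) ∧
    ∀ n N : ℕ, ∃ D : DS n N 1 (n + n) N 2, ∀ A B z, D.Cert A B z ↔ IsSum A B z := by
  refine ⟨?_, ?_, fun n N hN => one_cell n N hN, fun n N => two_cells n N⟩
  · intro n N K S W t hN ht hW hK Ω _ p hp0 hp1 D hs δ hδ hp hbig
    have h := random_bound hN ht hW hK Ω p hp0 hp1 D hs δ hδ hp hbig
    have e : (2 : ℝ) ^ 16 = 65536 := by norm_num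
    rw [e]
    exact h
  · intro n N K S W t hnN ht hW hK Ω _ p hp0 hp1 D hs ε hε hε1 hc hbig
    have e1 : (10 : ℝ) ^ 4 = 10000 := by norm_num
    have e2 : (2 : ℝ) ^ 20 = 1048576 := by norm_num
    rw [e1] at hbig
    rw [e2]
    exact worst_bound ht hW hK hnN Ω p hp0 hp1 D hs ε hε hε1 hc hbig

end Pool.Agent.Results.MP_e016b3_lc.NegativeCertificates
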