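import Pool.Agent.H34QM.Fin

set_option autoImplicit false

/-!
# 3SUM-Indexing: quantum memory and two adaptive probes need space `n ^ 2`

The memory is a quantum state (any density matrix, in general entangled) of `S` cells with `W`
levels each, which depends in any way on the two arrays. A query applies a measurement to one cell
and, depending on the outcome, a joint measurement to this cell and a second one (two adaptive
probes; arbitrary Kraus operators and effects). If for all arrays of `n` integers from
`{0, …, n ^ 3}` and all `z` the answer is correct with probability at least `1 / 2 + δ` (shared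
randomness is allowed), then

  `δ ^ 6 n ^ 2 ≤ 10 ^ 17 S W ^ 18 (log₂ (n / δ)) ^ 6`.

So for cells of `O(log log n)` qubits the space is at least `n ^ 2` up to polylogarithmic factors.
The classical bound TwoShortProbes is the case of a diagonal density matrix (with a better power of
`W`).

Proof. The hard instances are those of TwoShortProbes: `k ^ 2` queries, `(i, j)` asks for the random
bit `Y (j, e i)`, with a random map `e` from `{0, …, k - 1}` to `{0, …, u - 1}`. The expectation of the
operator given by a matrix `G` on the cells `a` and `b` in the state `ψ` is written as
`∑ z, ∑ i j, conj (ψ (z with i at a)) G ((i, z b), (z a, j)) ψ (z with j at b)`, where `z` runs over the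
contents of the whole memory. For every `z` this is a form in the vector
`Φ z (c, i, j) = [z c = i] ψ (z with j at c)`, with a matrix which depends only on the query, whose
row sums are controlled by the loads of the cells (the probability that the query uses the cell when
the memory is maximally mixed), while `∑ z, ‖Φ z (c, ·)‖ ^ 2 = W` for every cell `c`. The maximum
of the form over all states is estimated by a trace moment over the signs `Y`.
-/

namespace Pool.Agent.Results.MP_e016b3_lc.QuantumMemory

open Pool.Agent.H34QM

/-- Every data structure for 3SUM-Indexing whose memory is a quantum state of `S` cells with `W`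
levels each and whose queries make two adaptive probes, correct with probability at least
`1 / 2 + δ` for all arrays of `n` integers from `{0, …, n ^ 3}` and all `z`, satisfies
`δ ^ 6 n ^ 2 ≤ 10 ^ 17 S W ^ 18 (log₂ (n / δ)) ^ 6`. -/
theorem result (n S W : ℕ) (δ : ℝ) (hn : 2 ≤ n) (hS : 1 ≤ S) (hW : 1 ≤ W) (hδ : 0 < δ)
    (hδ2 : δ ≤ 1 / 2) (Ω : Type) [Fintype Ω] (p : Ω → ℝ) (D : Ω → QuantumDS n S W)
    (hD : QSolves p D δ) :
    δ ^ 6 * (n : ℝ) ^ 2 ≤ 10 ^ 17 * (S : ℝ) * (W : ℝ) ^ 18 * (Real.logb 2 (n / δ)) ^ 6 :=
  main n S W δ hn hS hW hδ hδ2 Ω p D hD

end Pool.Agent.Results.MP_e016b3_lc.QuantumMemory
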